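import Pool.Agent.Strip051.LC.Floor.Short
import Pool.Agent.Strip051.LC.Exact.FamR

/-! # The floor inequalities on the node curves

`FloorV` lists the inequalities on the curves of a `Pos`; they imply `FloorS` for the kernels which
are linear between the curves. -/

namespace Pool.Agent.Strip051.LC

open Pool.Agent.StripNear Pool.Agent.StripSquare Pool.Agent.Strip051.Sweep
open Pool.Agent.Strip051.LC.Line (MonoAt S0 tau mn_self)

/-- The coefficient of the level at the floor. -/
noncomputable def lf (s μ T : ℝ) : ℝ := (1 / 2 - g s * μ) - μ * (T - s) / (2 * h0)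

theorem BF_eq (s μ : ℝ) (Xi : ℝ → ℝ → ℝ) (X T : ℝ) : BF s μ Xi X T = lf s μ T * Xi X T := rfl

section

variable {n : ℕ}

/-- The inequalities at the floor on the node curves, for one vertex. -/
structure FloorV (P : Pos n) (κ s μ w : ℝ) (v xi : ℝ → Fin (n + 1) → ℝ) : Prop where
  mono : ∀ j T, 0 ≤ T → T ≤ 1 → P.dm j T → MonoAt s κ (P.cv j T) (v T j) (μ / h0 * xi T j)
  node : ∀ j T, 0 ≤ T → T ≤ 1 → P.dm j T → (T ≤ h0 ∨ 1 - c1 T ≤ P.cv j T) →
    0 ≤ S0 s κ w (P.cv j T) T (v T j) (lf s μ T * xi T j)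
  steep : ∀ (i : Fin n) T, h0 < T → T ≤ 1 → 1 < P.ρ i.succ → P.cv i.castSucc T ≤ 1 - c1 T →
    1 - c1 T ≤ P.cv i.succ T →
    0 ≤ (P.cv i.succ T - (1 - c1 T)) *
        S0 s κ w (P.cv i.castSucc T) T (v T i.castSucc) (lf s μ T * xi T i.castSucc) +
      ((1 - c1 T) - P.cv i.castSucc T) *
        S0 s κ w (P.cv i.succ T) T (v T i.succ) (lf s μ T * xi T i.succ)

variable {P : Pos n} {κ s μ w : ℝ} {v xi : ℝ → Fin (n + 1) → ℝ}

theorem c1_le_half {T : ℝ} (hT : h0 ≤ T) : c1 T ≤ 1 / 2 := by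
  have hp := h0_pos
  unfold c1
  rw [Real.sqrt_le_left (by norm_num)]
  nlinarith [h0_sq']

theorem Wc_lt_half {T : ℝ} (hT : h0 < T) : Wc T < 1 / 2 := by
  unfold Wc
  rw [if_neg (by linarith)]
  have : √(1 - (T - h0) ^ 2) < 1 := by
    rw [Real.sqrt_lt' one_pos]
    have : 0 < (T - h0) ^ 2 := by
      apply pow_pos
      linarith
    linarith
  linarith

theorem S0_mix (X X' T A A' B B' f : ℝ) :
    S0 s κ w (X + (X' - X) * f) T (A + (A' - A) * f) (B + (B' - B) * f) =
      (1 - f) * S0 s κ w X T A B + f * S0 s κ w X' T A' B' := by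
  unfold S0
  ring

theorem MonoAt_zero : MonoAt s κ 0 0 (μ / h0 * 0) := by
  unfold MonoAt
  simp

theorem FloorV.floorS (h : FloorV P κ s μ w v xi) (hv : P.Adm v) (hx : P.Adm xi) (hs0 : 0 ≤ s)
    (hs1 : s < h0) (hκ : 0 ≤ κ) :
    FloorS κ s μ w (ker P.nodes v (fun _ _ => 0)) (ker P.nodes xi (fun _ _ => 0))
      (NodeAt P.nodes) := by
  have hp := h0_pos
  have hp1 := h0_lt_one
  have nd : ∀ X T, 0 ≤ T → 0 < X → X ^ 2 + T ^ 2 ≤ 3 → NodeAt P.nodes X T →
      ∃ j, P.dm j T ∧ X = P.cv j T := by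
    intro X T hT hX _ hN
    obtain ⟨j, h1, h2⟩ := Pos.node hT hN
    exact ⟨j, h1, by rwa [abs_of_pos hX] at h2⟩
  refine ⟨?_, ?_, ?_, ?_⟩
  · intro X T hT hT1 hX _ h3 hN
    obtain ⟨j, h4, h5⟩ := nd X T hT hX h3 hN
    rw [h5, Pos.ker_cv hv j hT h4.2.2.2, Pos.ker_cv hx j hT h4.2.2.2]
    exact h.mono j T hT hT1 h4
  · -- the top
    have t3 : (1 : ℝ) ^ 2 ≤ 3 := by norm_num
    have e1 : c1 1 ≤ 1 := by
      rw [c1_zero le_rfl]
      norm_num
    have e3 : 1 ≤ c3 1 := by
      have := c3_sq t3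
      nlinarith [c3_nonneg 1]
    obtain ⟨i, h1, h2⟩ := Pos.cover (P := P) e1 e3
    rw [Pos.ker_seg hv i zero_le_one t3 h1 h2, Pos.ker_seg hx i zero_le_one t3 h1 h2]
    have dmj : ∀ j : Fin (n + 1), j ≠ 0 → P.dm j 1 := by
      intro j hj
      exact ⟨fun h => absurd h hj, fun _ _ => ⟨one_pos, hp1.ne'⟩, fun _ => by norm_num,
        by norm_num⟩
    have m2 := h.mono i.succ 1 zero_le_one le_rfl (dmj _ (Fin.succ_ne_zero i))
    have m1 : MonoAt s κ (P.cv i.castSucc 1) (v 1 i.castSucc) (μ / h0 * xi 1 i.castSucc) := by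
      by_cases hi : i.castSucc = 0
      · rw [hi, P.cv_zero, c1_zero le_rfl, hv.one 1 le_rfl, hx.one 1 le_rfl]
        exact MonoAt_zero
      · exact h.mono _ 1 zero_le_one le_rfl (dmj _ hi)
    have hlt : P.cv i.castSucc 1 < P.cv i.succ 1 := by
      obtain ⟨-, s2, s3⟩ := W_between one_pos hp1.ne' (by norm_num)
      exact gam_lt s2 s3 (P.mono (Fin.castSucc_lt_succ (i := i)))
    set a := P.cv i.castSucc 1
    set b := P.cv i.succ 1
    have hba : b - a ≠ 0 := by linarith
    have key := mono_between hs0 hs1 hκ h1 h2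
      (α := (v 1 i.succ - v 1 i.castSucc) / (b - a))
      (β := v 1 i.castSucc - (v 1 i.succ - v 1 i.castSucc) / (b - a) * a)
      (α' := μ / h0 * ((xi 1 i.succ - xi 1 i.castSucc) / (b - a)))
      (β' := μ / h0 * (xi 1 i.castSucc - (xi 1 i.succ - xi 1 i.castSucc) / (b - a) * a))
      (by
        convert m1 using 1
        · ring
        · ring)
      (by
        convert m2 using 1
        · field_simp
          ring
        · field_simp
          ring)
    convert key using 1
    · field_simp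
      ring
    · field_simp
      ring
  · intro X T hT hT1 hX _ h3 hN hc
    obtain ⟨j, h4, h5⟩ := nd X T hT hX h3 hN
    rw [BF_eq, h5, Pos.ker_cv hv j hT h4.2.2.2, Pos.ker_cv hx j hT h4.2.2.2]
    refine h.node j T hT hT1 h4 ?_
    rw [← h5]
    exact hc
  · intro T hT hT1
    have T0 : 0 ≤ T := by linarith
    have t3 : T ^ 2 ≤ 3 := by nlinarith
    change 0 ≤ S0 s κ w (1 - c1 T) T (ker P.nodes v (fun _ _ => 0) (1 - c1 T) T)
      (lf s μ T * ker P.nodes xi (fun _ _ => 0) (1 - c1 T) T)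
    rcases hT.eq_or_lt with h1 | h1
    · have d0 : P.dm 0 T := P.dm_zero T0 (by rw [← h1]; exact hp1)
      have e : 1 - c1 T = P.cv 0 T := by
        rw [P.cv_zero, ← h1, c1_h0]
        norm_num
      rw [e, Pos.ker_cv hv 0 T0 t3, Pos.ker_cv hx 0 T0 t3]
      exact h.node 0 T T0 hT1 d0 (Or.inl h1.symm.le)
    · have hc := c1_nonneg T
      have hh := c1_le_half hT
      have e1 : c1 T ≤ 1 - c1 T := by linarith
      have e3 : 1 - c1 T ≤ c3 T := by
        have := c3_sq t3
        nlinarith [c3_nonneg T]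
      obtain ⟨i, h4, h5⟩ := Pos.cover (P := P) e1 e3
      have hρ : 1 < P.ρ i.succ := by
        by_contra hneg
        have h6 : P.cv i.succ T ≤ Wc T := by
          have := gam_mono (ρ := P.ρ i.succ) (ρ' := 1) T0 t3 (not_lt.1 hneg)
          rw [gam_one] at this
          exact this
        have := Wc_lt_half h1
        linarith
      have key := h.steep i T h1 hT1 hρ h4 h5
      have hlt : P.cv i.castSucc T < P.cv i.succ T := by
        obtain ⟨-, s2, s3⟩ := W_between (by linarith) h1.ne' (by nlinarith : T ^ 2 < 3)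
        exact gam_lt s2 s3 (P.mono (Fin.castSucc_lt_succ (i := i)))
      rw [Pos.ker_seg hv i T0 t3 h4 h5, Pos.ker_seg hx i T0 t3 h4 h5]
      set X := 1 - c1 T
      set a := P.cv i.castSucc T
      set b := P.cv i.succ T
      have hba : 0 < b - a := by linarith
      set f := (X - a) / (b - a) with hf
      have hX : X = a + (b - a) * f := by
        rw [hf]
        field_simp
        ring
      have e5 : lf s μ T * (xi T i.castSucc + (xi T i.succ - xi T i.castSucc) * f) =
          lf s μ T * xi T i.castSucc +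
            (lf s μ T * xi T i.succ - lf s μ T * xi T i.castSucc) * f := by ring
      rw [e5]
      nth_rewrite 1 [hX]
      rw [S0_mix]
      have f1 : 1 - f = (b - X) / (b - a) := by
        rw [hf]
        field_simp
        ring
      rw [f1, hf, div_mul_eq_mul_div, div_mul_eq_mul_div, ← add_div]
      exact div_nonneg key hba.le

/-- The tables on the curves of a `Pos` are odd, bounded and piecewise affine; the rows are in the
wall form if the inequalities on the node curves hold for both vertices. -/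
theorem rowOK_of_floorV {N0 : ℕ} {vA vB vX : ℝ → Fin (n + 1) → ℝ} (hs0 : 0 ≤ s) (hs1 : s < h0)
    (hκ : 0 ≤ κ) (hA : P.Adm vA) (hB : P.Adm vB) (hX : P.Adm vX)
    (hF : FloorV P κ s 0 (1 / 2 - we s) vA vX)
    (hN : FloorV P κ s (mu N0 s) (1 / 2 - we s - mu N0 s * wq s) vB vX) :
    RowOK ((tab P.nodes vA vB vX).flat N0 κ s) N0 s :=
  rowOK_of_floorS hs0 hs1 hκ (tab_pieces P.isNodes vA vB vX) (hF.floorS hA hX hs0 hs1 hκ)
    (hN.floorS hB hX hs0 hs1 hκ)

end

end Pool.Agent.Strip051.LC
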