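import Pool.Agent.Strip051.LC.Floor.Curves
import Pool.Agent.Strip051.LC.Exact.WallLink

/-! # The floor inequalities in coordinates divided by `h0`

`x = s / h0`, `y = T / h0`.  `fS` is the slack at the floor. -/

namespace Pool.Agent.Strip051.LC.Floor

open Pool.Agent.StripNear Pool.Agent.StripSquare Pool.Agent.Strip051.Sweep
open Pool.Agent.Strip051.LC Pool.Agent.Strip051.LC.Exact
open Pool.Agent.Strip051.LC.Line (MonoAt S0 tau mn_low mn_high mn_neg jn D_low mn D)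

/-- The unit circle in the divided coordinates. -/
noncomputable def G (x : ℝ) : ℝ := √(1 - 3 / 4 * x ^ 2)

/-- The amplitude. -/
noncomputable def En (x : ℝ) : ℝ := x / 2 + G x - 1

/-- The second function. -/
noncomputable def Qn (x : ℝ) : ℝ := (1 - G x) * (2 * G x - 1)

/-- The slack at the floor: `X` displacement, `P` amplitude times kernel, `Z` coefficient of the
level, `M` mean of the density. -/
noncomputable def fS (x μ y X P Z M : ℝ) : ℝ :=
  X * (1 / 2 - En x - μ * Qn x + y / 2) - P * M - (1 / 2 - μ * G x - μ * (y - x) / 2) * Z - 1 / 2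

theorem g_mul (x : ℝ) : g (h0 * x) = G x := by
  unfold g G
  congr 1
  rw [mul_pow, h0_sq']

theorem c1_mul (y : ℝ) : c1 (h0 * y) = G y := by
  unfold c1 G
  congr 1
  rw [mul_pow, h0_sq']

theorem we_mul (x : ℝ) : we (h0 * x) = En x := by
  have hp := h0_pos
  unfold we En
  rw [g_mul]
  field_simp

theorem wq_mul (x : ℝ) : wq (h0 * x) = Qn x := by
  unfold wq Qn
  rw [g_mul]

theorem lf_mul (x μ y : ℝ) : lf (h0 * x) μ (h0 * y) = 1 / 2 - μ * G x - μ * (y - x) / 2 := by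
  have hp := h0_pos
  unfold lf
  rw [g_mul]
  field_simp

variable {x μ y : ℝ}

theorem S0_norm {X A Z M : ℝ}
    (h : mn (D (h0 * x) (kE (h0 * x))) 0 (tau (h0 * y)) = En x * M) :
    S0 (h0 * x) (kE (h0 * x)) (1 / 2 - we (h0 * x) - μ * wq (h0 * x)) X (h0 * y) A
      (lf (h0 * x) μ (h0 * y) * Z) = fS x μ y X (En x * A) Z M := by
  have hp := h0_pos
  unfold S0 fS
  rw [h, lf_mul, we_mul, wq_mul]
  field_simp

theorem kE_low (hx : 0 < x) (hx1 : x < 1) : kE (h0 * x) * (h0 - h0 * x) = 2 * En x / x := by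
  have hp := h0_pos
  unfold kE
  rw [we_mul]
  have h1 : h0 - h0 * x ≠ 0 := by
    have : 0 < h0 * (1 - x) := mul_pos hp (by linarith)
    have e : h0 - h0 * x = h0 * (1 - x) := by ring
    rw [e]
    exact this.ne'
  have h2 : 1 - x ≠ 0 := by linarith
  field_simp

theorem kE_high (hx : 0 < x) (hx1 : x < 1) : kE (h0 * x) * (h0 * x) = 2 * En x / (1 - x) := by
  have hp := h0_pos
  unfold kE
  rw [we_mul]
  have h1 : h0 - h0 * x = h0 * (1 - x) := by ring
  have h2 : 1 - x ≠ 0 := by linarith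
  rw [h1]
  field_simp

theorem MonoAt_norm (hx : 0 < x) (hx1 : x < 1) {X A Z : ℝ} (h1 : 2 * En x / x * A ≤ X + μ * Z)
    (h2 : -(2 * En x / (1 - x) * A) ≤ X + μ * Z) :
    MonoAt (h0 * x) (kE (h0 * x)) X A (μ / h0 * Z) := by
  have hp := h0_pos
  unfold MonoAt
  rw [kE_low hx hx1, kE_high hx hx1, show h0 * (μ / h0 * Z) = μ * Z by field_simp]
  rcases le_total 0 A with h | h
  · rw [max_eq_left h, max_eq_right (by linarith)]
    linarith
  · rw [max_eq_right h, max_eq_left (by linarith)]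
    linarith

/-! ### The mean of the density -/

/-- The mean in the first quarter below `x`. -/
noncomputable def m0 (x y : ℝ) : ℝ := (y - x) / x

/-- The mean in the first quarter above `x`. -/
noncomputable def m1 (x y : ℝ) : ℝ := (y - x) * (1 - y) / (y * (1 - x))

/-- The mean in the second quarter. -/
noncomputable def m2 (x y : ℝ) : ℝ := -(y - x) / (1 - x)

theorem tau0 (hy : y < 1 / 2) : tau (h0 * y) = h0 * y := by
  have hp := h0_pos
  exact tau_low (by nlinarith)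

theorem tau1 (hy : 1 / 2 ≤ y) (hy2 : y < 3 / 2) : tau (h0 * y) = h0 * y - h0 := by
  have hp := h0_pos
  exact tau_mid (by nlinarith) (by nlinarith)

theorem mean0 (hx : 0 < x) (hx1 : x < 1) (hy : y < 1 / 2) (h0y : 0 ≤ y) (hyx : y ≤ x) :
    mn (D (h0 * x) (kE (h0 * x))) 0 (tau (h0 * y)) = En x * m0 x y := by
  have hp := h0_pos
  rw [tau0 hy, mn_low (by nlinarith) (by positivity) (by nlinarith)]
  have e := kE_low hx hx1
  unfold m0
  calc kE (h0 * x) * ((h0 - h0 * x) / (2 * h0) * (h0 * y - h0 * x)) =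
      (kE (h0 * x) * (h0 - h0 * x)) * ((y - x) / 2) := by
        field_simp
    _ = _ := by
        rw [e]
        field_simp

theorem mean1 (hx : 0 < x) (hx1 : x < 1) (hy : y < 1 / 2) (hyx : x ≤ y) :
    mn (D (h0 * x) (kE (h0 * x))) 0 (tau (h0 * y)) = En x * m1 x y := by
  have hp := h0_pos
  have hy0 : 0 < y := by linarith
  rw [tau0 hy, mn_high (by positivity) (by nlinarith) (by nlinarith) (by nlinarith)
    (by positivity)]
  have e := kE_high hx hx1
  have h2 : 1 - x ≠ 0 := by linarith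
  unfold m1
  calc kE (h0 * x) * (h0 * x / (2 * h0) * ((h0 * y - h0 * x) * (h0 - h0 * y) / (h0 * y))) =
      (kE (h0 * x) * (h0 * x)) * ((y - x) * (1 - y) / (2 * y)) := by
        field_simp
    _ = _ := by
        rw [e]
        field_simp

theorem mean2 (hx : 0 < x) (hx1 : x < 1) (hy : 1 / 2 ≤ y) (hy1 : y ≤ 1) (hyx : x ≤ y) :
    mn (D (h0 * x) (kE (h0 * x))) 0 (tau (h0 * y)) = En x * m2 x y := by
  have hp := h0_pos
  rw [tau1 hy (by linarith), mn_neg (by positivity) (by nlinarith) (by nlinarith)]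
  have e := kE_high hx hx1
  have h2 : 1 - x ≠ 0 := by linarith
  unfold m2
  calc kE (h0 * x) * (h0 * x / (2 * h0) * (h0 * x - h0 - (h0 * y - h0))) =
      (kE (h0 * x) * (h0 * x)) * (-(y - x) / 2) := by
        field_simp
        ring
    _ = _ := by
        rw [e]
        field_simp

theorem mean3 (hx : 0 < x) (hx1 : x < 1) (hy : 1 ≤ y) (hy1 : y < 3 / 2) (hyx : y - 1 ≤ x) :
    mn (D (h0 * x) (kE (h0 * x))) 0 (tau (h0 * y)) = En x * m0 x (y - 1) := by
  have hp := h0_pos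
  rw [tau1 (by linarith) hy1, show h0 * y - h0 = h0 * (y - 1) by ring, ← tau0 (y := y - 1)
    (by linarith)]
  exact mean0 hx hx1 (by linarith) (by linarith) hyx

theorem mean4 (hx : 0 < x) (hx1 : x < 1) (hy1 : y < 3 / 2) (hyx : x ≤ y - 1) :
    mn (D (h0 * x) (kE (h0 * x))) 0 (tau (h0 * y)) = En x * m1 x (y - 1) := by
  have hp := h0_pos
  rw [tau1 (by linarith) hy1, show h0 * y - h0 = h0 * (y - 1) by ring, ← tau0 (y := y - 1)
    (by linarith)]
  exact mean1 hx hx1 (by linarith) hyx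

/-! ### The inequalities on the node curves -/

section

variable {n : ℕ}

/-- The inequalities at the floor in the divided coordinates, for one vertex and `x ≤ 1/2`. -/
structure FloorN (P : Pos n) (x μ : ℝ) (v xi : ℝ → Fin (n + 1) → ℝ) : Prop where
  monoA : ∀ j y, 0 ≤ y → h0 * y ≤ 1 → P.dm j (h0 * y) →
    2 * En x / x * v (h0 * y) j ≤ P.cv j (h0 * y) + μ * xi (h0 * y) j
  monoB : ∀ j y, 0 ≤ y → h0 * y ≤ 1 → P.dm j (h0 * y) →
    -(2 * En x / (1 - x) * v (h0 * y) j) ≤ P.cv j (h0 * y) + μ * xi (h0 * y) j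
  q0 : ∀ j y, 0 ≤ y → y ≤ x → y < 1 / 2 → P.dm j (h0 * y) →
    0 ≤ fS x μ y (P.cv j (h0 * y)) (En x * v (h0 * y) j) (xi (h0 * y) j) (m0 x y)
  q1 : ∀ j y, x ≤ y → y < 1 / 2 → P.dm j (h0 * y) →
    0 ≤ fS x μ y (P.cv j (h0 * y)) (En x * v (h0 * y) j) (xi (h0 * y) j) (m1 x y)
  q2 : ∀ j y, 1 / 2 ≤ y → y ≤ 1 → P.dm j (h0 * y) →
    0 ≤ fS x μ y (P.cv j (h0 * y)) (En x * v (h0 * y) j) (xi (h0 * y) j) (m2 x y)
  q3 : ∀ j y, 1 < y → h0 * y ≤ 1 → y - 1 ≤ x → 1 < P.ρ j → P.dm j (h0 * y) →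
    1 - G y ≤ P.cv j (h0 * y) →
    0 ≤ fS x μ y (P.cv j (h0 * y)) (En x * v (h0 * y) j) (xi (h0 * y) j) (m0 x (y - 1))
  q4 : ∀ j y, 1 < y → h0 * y ≤ 1 → x ≤ y - 1 → 1 < P.ρ j → P.dm j (h0 * y) →
    1 - G y ≤ P.cv j (h0 * y) →
    0 ≤ fS x μ y (P.cv j (h0 * y)) (En x * v (h0 * y) j) (xi (h0 * y) j) (m1 x (y - 1))
  s3 : ∀ (i : Fin n) y, 1 < y → h0 * y ≤ 1 → y - 1 ≤ x → 1 < P.ρ i.succ →
    P.cv i.castSucc (h0 * y) ≤ 1 - G y → 1 - G y ≤ P.cv i.succ (h0 * y) →
    0 ≤ (P.cv i.succ (h0 * y) - (1 - G y)) *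
        fS x μ y (P.cv i.castSucc (h0 * y)) (En x * v (h0 * y) i.castSucc)
          (xi (h0 * y) i.castSucc) (m0 x (y - 1)) +
      ((1 - G y) - P.cv i.castSucc (h0 * y)) *
        fS x μ y (P.cv i.succ (h0 * y)) (En x * v (h0 * y) i.succ)
          (xi (h0 * y) i.succ) (m0 x (y - 1))
  s4 : ∀ (i : Fin n) y, 1 < y → h0 * y ≤ 1 → x ≤ y - 1 → 1 < P.ρ i.succ →
    P.cv i.castSucc (h0 * y) ≤ 1 - G y → 1 - G y ≤ P.cv i.succ (h0 * y) →
    0 ≤ (P.cv i.succ (h0 * y) - (1 - G y)) *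
        fS x μ y (P.cv i.castSucc (h0 * y)) (En x * v (h0 * y) i.castSucc)
          (xi (h0 * y) i.castSucc) (m1 x (y - 1)) +
      ((1 - G y) - P.cv i.castSucc (h0 * y)) *
        fS x μ y (P.cv i.succ (h0 * y)) (En x * v (h0 * y) i.succ)
          (xi (h0 * y) i.succ) (m1 x (y - 1))

variable {P : Pos n} {v xi : ℝ → Fin (n + 1) → ℝ}

theorem rho_gt {j : Fin (n + 1)} {T : ℝ} (h1 : h0 < T) (h2 : T ≤ 1) (h : 1 - c1 T ≤ P.cv j T) :
    1 < P.ρ j := by
  have hp := h0_pos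
  by_contra hneg
  have h6 : P.cv j T ≤ Wc T := by
    have := gam_mono (ρ := P.ρ j) (ρ' := 1) (by linarith : 0 ≤ T) (by nlinarith) (not_lt.1 hneg)
    rw [gam_one] at this
    exact this
  have := Wc_lt_half h1
  have := c1_le_half h1.le
  linarith

theorem FloorN.floorV (h : FloorN P x μ v xi) (hx : 0 < x) (hx2 : x ≤ 1 / 2) :
    FloorV P (kE (h0 * x)) (h0 * x) μ (1 / 2 - we (h0 * x) - μ * wq (h0 * x)) v xi := by
  have hp := h0_pos
  have hp1 := h0_lt_one
  have hp2 : 4 / 5 < h0 := by nlinarith [h0_sq']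
  have hx1 : x < 1 := by linarith
  have div : ∀ T : ℝ, T = h0 * (T / h0) := fun T => by field_simp
  have ub : ∀ y : ℝ, h0 * y ≤ 1 → y < 3 / 2 := by
    intro y hy
    nlinarith
  refine ⟨?_, ?_, ?_⟩
  · intro j T h1 h2 h3
    obtain ⟨y, rfl⟩ : ∃ y, T = h0 * y := ⟨_, div T⟩
    have hy : 0 ≤ y := nonneg_of_mul_nonneg_right h1 hp
    exact MonoAt_norm hx hx1 (h.monoA j y hy h2 h3) (h.monoB j y hy h2 h3)
  · intro j T h1 h2 h3 h4
    obtain ⟨y, rfl⟩ : ∃ y, T = h0 * y := ⟨_, div T⟩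
    have hy : 0 ≤ y := nonneg_of_mul_nonneg_right h1 hp
    rw [c1_mul] at h4
    rcases lt_or_ge y (1 / 2) with h5 | h5
    · rcases le_total y x with h6 | h6
      · rw [S0_norm (mean0 hx hx1 h5 hy h6)]
        exact h.q0 j y hy h6 h5 h3
      · rw [S0_norm (mean1 hx hx1 h5 h6)]
        exact h.q1 j y h6 h5 h3
    · rcases le_or_gt y 1 with h6 | h6
      · rw [S0_norm (mean2 hx hx1 h5 h6 (by linarith))]
        exact h.q2 j y h5 h6 h3
      · have h7 : 1 - G y ≤ P.cv j (h0 * y) := by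
          rcases h4 with h4 | h4
          · nlinarith
          · exact h4
        have h9 : 1 < P.ρ j := by
          refine rho_gt (T := h0 * y) (by nlinarith) h2 ?_
          rw [c1_mul]
          exact h7
        rcases le_total (y - 1) x with h8 | h8
        · rw [S0_norm (mean3 hx hx1 h6.le (ub y h2) h8)]
          exact h.q3 j y h6 h2 h8 h9 h3 h7
        · rw [S0_norm (mean4 hx hx1 (ub y h2) h8)]
          exact h.q4 j y h6 h2 h8 h9 h3 h7
  · intro i T h1 h2 h3 h4 h5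
    obtain ⟨y, rfl⟩ : ∃ y, T = h0 * y := ⟨_, div T⟩
    have h6 : 1 < y := by nlinarith
    rw [c1_mul] at h4 h5 ⊢
    rcases le_total (y - 1) x with h8 | h8
    · rw [S0_norm (mean3 hx hx1 h6.le (ub y h2) h8), S0_norm (mean3 hx hx1 h6.le (ub y h2) h8)]
      exact h.s3 i y h6 h2 h8 h3 h4 h5
    · rw [S0_norm (mean4 hx hx1 (ub y h2) h8), S0_norm (mean4 hx hx1 (ub y h2) h8)]
      exact h.s4 i y h6 h2 h8 h3 h4 h5

end

end Pool.Agent.Strip051.LC.Floor
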