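import Pool.Agent.Strip051.LC.Exact.LongMain

/-! # The floor inequalities of a certificate for one rest: short pairs

`FloorS` is `FloorC` without the condition on the long pairs: with zero flux on the long edges only
the short pairs at the floor matter. -/

namespace Pool.Agent.Strip051.LC

open Pool.Agent.StripNear Pool.Agent.StripSquare Pool.Agent.Strip051.Sweep
open Pool.Agent.Strip051.LC.Line

section

variable {κ s μ w : ℝ} {R Xi : ℝ → ℝ → ℝ} {Nd : ℝ → ℝ → Prop}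

/-- The inequalities at the floor for the short pairs, for one vertex. -/
structure FloorS (κ s μ w : ℝ) (R Xi : ℝ → ℝ → ℝ) (Nd : ℝ → ℝ → Prop) : Prop where
  mono : ∀ X T, 0 ≤ T → T ≤ 1 → 0 < X → 1 ≤ X ^ 2 + T ^ 2 → X ^ 2 + T ^ 2 ≤ 3 → Nd X T →
    MonoAt s κ X (R X T) (μ / h0 * Xi X T)
  top : MonoAt s κ 1 (R 1 1) (μ / h0 * Xi 1 1)
  node : ∀ X T, 0 ≤ T → T ≤ 1 → 0 < X → 1 ≤ X ^ 2 + T ^ 2 → X ^ 2 + T ^ 2 ≤ 3 → Nd X T →
    (T ≤ h0 ∨ 1 - Real.sqrt (1 - T ^ 2) ≤ X) → 0 ≤ S0 s κ w X T (R X T) (BF s μ Xi X T)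
  steep : ∀ T, h0 ≤ T → T ≤ 1 → 0 ≤ S0 s κ w (1 - Real.sqrt (1 - T ^ 2)) T
    (R (1 - Real.sqrt (1 - T ^ 2)) T) (BF s μ Xi (1 - Real.sqrt (1 - T ^ 2)) T)

theorem FloorS.slack (h : FloorS κ s μ w R Xi Nd) (hP : PiecesF R Xi Nd)
    {X T : ℝ} (hT : 0 ≤ T) (h1 : 1 ≤ X ^ 2 + T ^ 2) (h2 : X ^ 2 + T ^ 2 ≤ 2 * X)
    (h3 : X ^ 2 + T ^ 2 ≤ 3) : 0 ≤ S0 s κ w X T (R X T) (BF s μ Xi X T) := by
  have hX : 1 / 2 ≤ X := by linarith
  have hT1 : T ^ 2 ≤ 1 := by nlinarith [sq_nonneg (X - 1)]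
  have hT1' : T ≤ 1 := by nlinarith
  obtain ⟨a, b, h4, h5, h6, h7, h8, α, β, α', β', h9⟩ := hP X T hT h1 h3
  have hb := h8 b (h4.trans h5) le_rfl
  have hb0 : 0 < b := by linarith
  have hr := Real.sqrt_nonneg (1 - T ^ 2)
  have hr2 := Real.sq_sqrt (show 0 ≤ 1 - T ^ 2 by linarith)
  set r := Real.sqrt (1 - T ^ 2) with hrd
  have hlo : 1 - r ≤ X := by
    rcases le_total 1 X with h | h
    · linarith
    · have : (1 - X) ^ 2 ≤ r ^ 2 := by rw [hr2]; nlinarith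
      have := abs_le_of_sq_le_sq' this hr
      linarith [this.2]
  set M := mn (D s κ) 0 (tau T) with hM
  set c := (1 / 2 - g s * μ) - μ * (T - s) / (2 * h0) with hc
  have hA : ∀ u, a ≤ u → u ≤ b → S0 s κ w u T (R u T) (BF s μ Xi u T) =
      (w + T / (2 * h0) - α * M - c * α') * u + (-(β * M) - c * β' - 1 / 2) := by
    intro u hu1 hu2
    obtain ⟨e1, e2⟩ := h9 u hu1 hu2
    unfold S0 BF
    rw [e1, e2, ← hM, ← hc]
    ring
  have hbS : 0 ≤ S0 s κ w b T (R b T) (BF s μ Xi b T) :=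
    h.node b T hT hT1' hb0 hb.1 hb.2 h7 (Or.inr (hlo.trans h5))
  rw [hA X h4 h5]
  rw [hA b (h4.trans h5) le_rfl] at hbS
  have ha1 := h8 a le_rfl (h4.trans h5)
  rcases le_or_gt T h0 with h10 | h10
  · have ha0 : 0 < a := by
      by_contra hneg
      have h11 := h8 0 (not_lt.1 hneg) (by linarith)
      have h12 := h0_sq
      have hp := h0_pos
      nlinarith [h11.1]
    have haS := h.node a T hT hT1' ha0 ha1.1 ha1.2 h6 (Or.inl h10)
    rw [hA a le_rfl (h4.trans h5)] at haS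
    exact affine_nonneg h4 h5 haS hbS
  · rcases le_total a (1 - r) with h11 | h11
    · have h12 := h.steep T h10.le hT1'
      rw [← hrd, hA (1 - r) h11 (hlo.trans h5)] at h12
      exact affine_nonneg hlo h5 h12 hbS
    · rcases lt_or_ge 0 a with h12 | h12
      · have haS := h.node a T hT hT1' h12 ha1.1 ha1.2 h6 (Or.inr h11)
        rw [hA a le_rfl (h4.trans h5)] at haS
        exact affine_nonneg h4 h5 haS hbS
      · have h13 : 1 ≤ r := by linarith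
        have hp := h0_pos
        nlinarith [h0_sq]

theorem FloorS.monoAll (h : FloorS κ s μ w R Xi Nd) (hP : PiecesF R Xi Nd)
    (hs0 : 0 ≤ s) (hs1 : s < h0) (hκ : 0 ≤ κ)
    {X T : ℝ} (hT : 0 ≤ T) (h1 : 1 ≤ X ^ 2 + T ^ 2) (h2 : X ^ 2 + T ^ 2 ≤ 2 * X)
    (h3 : X ^ 2 + T ^ 2 ≤ 3) : MonoAt s κ X (R X T) (μ / h0 * Xi X T) := by
  have hX : 1 / 2 ≤ X := by linarith
  have hT1 : T ^ 2 ≤ 1 := by nlinarith [sq_nonneg (X - 1)]
  have hT1' : T ≤ 1 := by nlinarith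
  rcases hT1'.eq_or_lt with ht | ht
  · have : X = 1 := by
      subst ht
      nlinarith [sq_nonneg (X - 1)]
    subst this
    subst ht
    exact h.top
  obtain ⟨a, b, h4, h5, h6, h7, h8, α, β, α', β', h9⟩ := hP X T hT h1 h3
  have hb := h8 b (h4.trans h5) le_rfl
  have hb0 : 0 < b := by linarith
  have ha1 := h8 a le_rfl (h4.trans h5)
  have ha0 : 0 < a := by
    by_contra hneg
    have h11 := h8 0 (not_lt.1 hneg) (by linarith)
    nlinarith [h11.1]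
  have ma := h.mono a T hT hT1' ha0 ha1.1 ha1.2 h6
  have mb := h.mono b T hT hT1' hb0 hb.1 hb.2 h7
  obtain ⟨a1, a2⟩ := h9 a le_rfl (h4.trans h5)
  obtain ⟨b1, b2⟩ := h9 b (h4.trans h5) le_rfl
  obtain ⟨x1, x2⟩ := h9 X h4 h5
  rw [a1, a2] at ma
  rw [b1, b2] at mb
  rw [x1, x2]
  have e : ∀ u : ℝ, μ / h0 * (α' * u + β') = μ / h0 * α' * u + μ / h0 * β' := fun u => by ring
  rw [e] at ma mb ⊢
  exact mono_between hs0 hs1 hκ h4 h5 ma mb

/-- Short pairs. -/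
theorem FloorS.short (h : FloorS κ s μ w R Xi Nd) (hP : PiecesF R Xi Nd)
    (hs0 : 0 ≤ s) (hs1 : s < h0) (hκ : 0 ≤ κ) {X y z : ℝ} (hy : 0 ≤ y) (hz : 0 ≤ z)
    (h1 : 1 ≤ X ^ 2 + |z - y| ^ 2) (h2 : X ^ 2 + |z - y| ^ 2 ≤ 2 * X)
    (h3 : X ^ 2 + |z - y| ^ 2 ≤ 3) : 1 / 2 ≤ UF κ s μ w R Xi X y z := by
  have hp := h0_pos
  have main : ∀ y T : ℝ, 0 ≤ y → 0 ≤ T → 1 ≤ X ^ 2 + T ^ 2 → X ^ 2 + T ^ 2 ≤ 2 * X →
      X ^ 2 + T ^ 2 ≤ 3 → 1 / 2 ≤ UF κ s μ w R Xi X y (y + T) := by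
    intro y T hy hT h1 h2 h3
    have hM := h.monoAll hP hs0 hs1 hκ hT h1 h2 h3
    have hS := h.slack hP hT h1 h2 h3
    have e : |T - 0| = T := by rw [sub_zero, abs_of_nonneg hT]
    have up := UF_up (κ := κ) (s := s) (μ := μ) (w := w) (R := R) (Xi := Xi) (X := X) (y := 0)
      (z := T) hs0 hs1 hκ (by rw [e]; exact hM) hy
    rw [zero_add, add_comm T y] at up
    refine le_trans ?_ up
    unfold S0 BF at hS
    unfold UF
    rw [e]
    have e2 : Qd R (D s κ) X 0 T = R X T * mn (D s κ) 0 (tau T) := by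
      have := Qd_up R (D s κ) X (y := 0) hT
      rw [zero_add, zero_add] at this
      exact this
    rw [e2, zero_add]
    have e3 : ((1 / 2 - g s * μ) - μ * (T - s) / (2 * h0)) * Xi X T =
        (1 / 2 - g s * μ) * Xi X T - μ * ((T - s) / (2 * h0)) * Xi X T := by ring
    rw [e3] at hS
    linarith
  rcases le_total y z with h4 | h4
  · rw [abs_of_nonneg (by linarith : 0 ≤ z - y)] at h1 h2 h3
    have := main y (z - y) hy (by linarith) h1 h2 h3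
    rwa [show y + (z - y) = z by ring] at this
  · rw [abs_of_nonpos (by linarith : z - y ≤ 0)] at h1 h2 h3
    have := main z (-(z - y)) hz (by linarith) h1 h2 h3
    rw [show z + -(z - y) = y by ring, UF_comm] at this
    exact this

end

section

variable {T : Tab} {N0 : ℕ} {κ s : ℝ}

/-- The slacks of the short pairs at the floor. -/
theorem WF_of_floorS (hs0 : 0 ≤ s) (hs1 : s < h0) (hκ : 0 ≤ κ) {μ : ℝ}
    {R : ℝ → ℝ → ℝ} {Nd : ℝ → ℝ → Prop}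
    (hQ : ∀ X y z, (T.data N0 κ s).Q μ (-(1 / 2 - g s * μ)) X (y - s / 2) (z - s / 2) =
      Qd R (D s κ) X y z + (1 / 2 - g s * μ) * T.Xi X |z - y| -
        μ * ((y + z - s) / (2 * h0)) * T.Xi X |z - y|)
    (hP : PiecesF R T.Xi Nd) (h : FloorS κ s μ (1 / 2 - we s - μ * wq s) R T.Xi Nd)
    {p q : Pt} (hf : FF p q) (k : ds p q ≤ 3) : 0 ≤ WF (T.flat N0 κ s) s μ p q := by
  obtain ⟨m, e1, e2⟩ := hf.circ
  obtain ⟨-, g2, g3⟩ := floor_geo hf.lt.le hf.p0 hf.q0 hf.sep e1 e2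
  set w := 1 / 2 - we s - μ * wq s with hw
  have h3 : (q.1 - p.1) ^ 2 + |q.2 - p.2| ^ 2 ≤ 3 := by
    rw [sq_abs, ← ds_xz]
    exact k
  have key := h.short hP hs0 hs1 hκ hf.p0 hf.q0 g2 g3 h3
  unfold UF at key
  have e : ed ((T.flat N0 κ s).Q μ (-(1 / 2 - g s * μ))) (dn s p) (dn s q) =
      Qd R (D s κ) (q.1 - p.1) p.2 q.2 +
        (1 / 2 - g s * μ) * T.Xi (q.1 - p.1) |q.2 - p.2| -
        μ * ((p.2 + q.2 - s) / (2 * h0)) * T.Xi (q.1 - p.1) |q.2 - p.2| := by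
    rw [← hQ]
    unfold ed Tab.flat
    have e4 : ((dn s q).1 - (dn s p).1) ^ 2 + ((dn s q).2 - (dn s p).2) ^ 2 ≤ 3 := by
      have e5 : ds (dn s p) (dn s q) = ds p q := ds_sh (s / 2) p q
      rw [← ds_xz, e5]
      exact k
    rw [Data.glue_Q_short e4]
    rfl
  unfold WF
  rw [e]
  rw [hw] at key
  linarith

/-- **The wall form of the rows** from the tables at the floor, short pairs only. -/
theorem rowOK_of_floorS (hs0 : 0 ≤ s) (hs1 : s < h0) (hκ : 0 ≤ κ) {Nd : ℝ → ℝ → Prop}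
    (hP : T.Pieces Nd) (hF : FloorS κ s 0 (1 / 2 - we s) T.A T.Xi Nd)
    (hN : FloorS κ s (mu N0 s) (1 / 2 - we s - mu N0 s * wq s) T.B T.Xi Nd) :
    RowOK (T.flat N0 κ s) N0 s := by
  refine Or.inl fun a b hf k => ⟨?_, ?_⟩
  · refine WF_of_floorS (R := T.A) (Nd := Nd) hs0 hs1 hκ ?_ ?_ ?_ hf k
    · intro X y z
      have e : -(1 / 2 - g s * 0) = -(1 / 2 : ℝ) := by ring
      rw [e, Tab.Q_far, Qc_dn, show z - s / 2 - (y - s / 2) = z - y by ring]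
      ring
    · intro X t h1 h2 h3
      obtain ⟨a, b, a1, a2, a3, a4, a5, ⟨α, β, a6⟩, -, ⟨α', β', a7⟩⟩ := hP X t h1 h2 h3
      exact ⟨a, b, a1, a2, a3, a4, a5, α, β, α', β', fun u u1 u2 => ⟨a6 u u1 u2, a7 u u1 u2⟩⟩
    · rw [zero_mul, sub_zero]
      exact hF
  · have hg : 0 < g s := by linarith [g_gt_half hs0 hs1]
    have hN0 : (0 : ℝ) ≤ N0 := Nat.cast_nonneg N0
    have hm : mu N0 s ≠ 0 := by
      unfold mu
      positivity
    refine WF_of_floorS (R := T.B) (Nd := Nd) hs0 hs1 hκ ?_ ?_ hN hf k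
    · intro X y z
      unfold Data.Q Tab.data
      simp only
      rw [Qc_dn, Qc_dn, show z - s / 2 - (y - s / 2) = z - y by ring]
      field_simp
      ring
    · intro X t h1 h2 h3
      obtain ⟨a, b, a1, a2, a3, a4, a5, -, ⟨α, β, a6⟩, ⟨α', β', a7⟩⟩ := hP X t h1 h2 h3
      exact ⟨a, b, a1, a2, a3, a4, a5, α, β, α', β', fun u u1 u2 => ⟨a6 u u1 u2, a7 u u1 u2⟩⟩

end

end Pool.Agent.Strip051.LC
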