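import Pool.Agent.Strip051.LC.Floor.UnitN

/-! # Unit pairs at the floor near the tight pair, divided coordinates

`x = s / h0`, `y = T / h0`, `δ` is the correction of `κ`, `w` is the inverse of the width of the tents
of the third density.  The slack is `(y - x) ^ 2` times an explicit function. -/

namespace Pool.Agent.Strip051.LC.Floor

open Pool.Agent.StripNear Pool.Agent.StripSquare Pool.Agent.Strip051.Sweep
open Pool.Agent.Strip051.LC Pool.Agent.Strip051.LC.Exact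

/-- `En y = y * epn y` -/
noncomputable def epn (y : ℝ) : ℝ := 1 / 2 - 3 / 4 * y / (1 + G y)

/-- `En y = (1 - y) * ehn y` -/
noncomputable def ehn (y : ℝ) : ℝ := 3 / 4 * (1 + y) / (G y + 1 / 2) - 1 / 2

/-- `G x - G y = (y - x) * rhn y x` -/
noncomputable def rhn (y x : ℝ) : ℝ := 3 / 4 * (y + x) / (G y + G x)

noncomputable def Aan (y x : ℝ) : ℝ := y * G x + x * G y

noncomputable def omn (y x : ℝ) : ℝ := (y + x) / Aan y x

/-- `epn x - epn y = (y - x) * lmn y x` -/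
noncomputable def lmn (y x : ℝ) : ℝ := 3 / 4 * (1 + omn y x) / ((1 + G y) * (1 + G x))

/-- `ehn y - ehn x = (y - x) * lhn y x` -/
noncomputable def lhn (y x : ℝ) : ℝ :=
  3 / 4 * (1 / 2 + rhn y x + omn y x) / ((G y + 1 / 2) * (G x + 1 / 2))

/-- The factor `κ`. -/
noncomputable def kan (y δ : ℝ) : ℝ := (G y - 3 / 2 * y) / (2 * En y) + δ

/-- The factor of the third kernel without correction. -/
noncomputable def k3n (y : ℝ) : ℝ := 3 / 4 * (1 + 2 * y + y * GUn y / G y)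

/-- The factor of the third kernel. -/
noncomputable def k3d (y δ : ℝ) : ℝ := k3n y - (GUn y + 2 * G y) * δ

/-- The level. -/
noncomputable def zen (y x δ : ℝ) : ℝ := Qn y - 2 * En y * δ * (y - x)

/-- Both parts, common terms. -/
noncomputable def hbn (y x : ℝ) : ℝ :=
  3 / 2 * y * rhn y x - rhn y x * (2 * G x * G y - 1) / (G y * Aan y x)

/-- Far part below `x`. -/
noncomputable def hfl (y x δ : ℝ) : ℝ :=
  rhn y x / Aan y x - (G y - 3 / 2 * y) / (2 * epn y) * lmn y x - δ * y * lmn y x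

/-- Near part below `x`. -/
noncomputable def hml (y x δ w : ℝ) : ℝ :=
  hbn y x - (G y - 3 / 2 * y) / (2 * epn y) * (lmn y x * GUn x - epn y * (3 / 4 + 3 / 2 * rhn y x)) -
    y * k3n y * lmn y x - epn x * k3d y δ * (w - 1) +
    δ * (2 * y * (G y * lmn y x - rhn y x * epn y) - En y + y * epn x * (3 / 4 + 3 / 2 * rhn y x))

/-- Far part above `x`. -/
noncomputable def hfh (y x δ : ℝ) : ℝ :=
  rhn y x / Aan y x + (G y - 3 / 2 * y) / (2 * ehn y) * lhn y x + δ * (1 - y) * lhn y x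

/-- Near part above `x`. -/
noncomputable def hmh (y x δ w : ℝ) : ℝ :=
  hbn y x + (G y - 3 / 2 * y) / (2 * ehn y) * (lhn y x * GUn x + ehn y * (3 / 4 + 3 / 2 * rhn y x)) +
    (1 - y) * k3n y * lhn y x + ehn x * k3d y δ * (w - 1) +
    δ * (2 * (1 - y) * (-(G y * lhn y x) - rhn y x * ehn y) - En y +
      (1 - y) * ehn x * (3 / 4 + 3 / 2 * rhn y x))

variable {x y μ δ w : ℝ}

theorem par (h0y : 0 < y) (h1 : y < 1) : ∃ t, 0 < t ∧ t < 1 ∧ y = 4 * t / (3 + t ^ 2) ∧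
    G y = (3 - t ^ 2) / (3 + t ^ 2) := by
  have hG := G_nonneg y
  have hs := G_sq (y := y) (by nlinarith)
  have hG2 : 1 / 2 < G y := by nlinarith
  refine ⟨3 * y / (2 * (1 + G y)), by positivity, ?_, ?_, ?_⟩
  · rw [div_lt_one (by positivity)]
    linarith
  · have : 3 + (3 * y / (2 * (1 + G y))) ^ 2 = 6 / (1 + G y) := by
      field_simp
      nlinarith
    rw [this]
    field_simp
    ring
  · have h3 : 3 + (3 * y / (2 * (1 + G y))) ^ 2 = 6 / (1 + G y) := by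
      field_simp
      nlinarith
    have h4 : 3 - (3 * y / (2 * (1 + G y))) ^ 2 = 6 * G y / (1 + G y) := by
      have : 3 - (3 * y / (2 * (1 + G y))) ^ 2 = 6 - (3 + (3 * y / (2 * (1 + G y))) ^ 2) := by ring
      rw [this, h3]
      field_simp
      ring
    rw [h3, h4]
    field_simp

section

variable {t z : ℝ}

theorem t_En (hy : y = 4 * t / (3 + t ^ 2)) (hG : G y = (3 - t ^ 2) / (3 + t ^ 2)) :
    En y = 2 * t * (1 - t) / (3 + t ^ 2) := by
  have : (3 : ℝ) + t ^ 2 ≠ 0 := by positivity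
  unfold En
  rw [hG, hy]
  field_simp
  ring

theorem t_GUn (hy : y = 4 * t / (3 + t ^ 2)) (hG : G y = (3 - t ^ 2) / (3 + t ^ 2)) :
    GUn y = 3 * t * (1 + t) / (3 + t ^ 2) := by
  have : (3 : ℝ) + t ^ 2 ≠ 0 := by positivity
  unfold GUn
  rw [hG, hy]
  field_simp
  ring

theorem t_Qn (hG : G y = (3 - t ^ 2) / (3 + t ^ 2)) :
    Qn y = 2 * t * (1 - t) / (3 + t ^ 2) * (3 * t * (1 + t) / (3 + t ^ 2)) := by
  have : (3 : ℝ) + t ^ 2 ≠ 0 := by positivity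
  unfold Qn
  rw [hG]
  field_simp
  ring

theorem t_epn (hy : y = 4 * t / (3 + t ^ 2)) (hG : G y = (3 - t ^ 2) / (3 + t ^ 2)) :
    epn y = (1 - t) / 2 := by
  have : (3 : ℝ) + t ^ 2 ≠ 0 := by positivity
  have h1 : 1 + G y = 6 / (3 + t ^ 2) := by
    rw [hG]
    field_simp
    ring
  unfold epn
  rw [h1, hy]
  field_simp
  ring

theorem t_ehn (h1 : t < 1) (hy : y = 4 * t / (3 + t ^ 2))
    (hG : G y = (3 - t ^ 2) / (3 + t ^ 2)) (h0 : 0 < t) : ehn y = 2 * t / (3 - t) := by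
  have : (3 : ℝ) + t ^ 2 ≠ 0 := by positivity
  have a1 : (3 : ℝ) - t ≠ 0 := by linarith
  have a2 : (3 : ℝ) + t ≠ 0 := by linarith
  have h1 : G y + 1 / 2 = (3 - t) * (3 + t) / (2 * (3 + t ^ 2)) := by
    rw [hG]
    field_simp
    ring
  unfold ehn
  rw [h1, hy]
  field_simp
  ring

theorem t_sub (hy : y = 4 * t / (3 + t ^ 2)) (hx : x = 4 * z / (3 + z ^ 2)) :
    y - x = 4 * (t - z) * (3 - t * z) / ((3 + t ^ 2) * (3 + z ^ 2)) := by
  rw [hy, hx]
  field_simp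
  ring

theorem t_rhn (h0t : 0 < t) (h1t : t < 1) (h0z : 0 < z) (h1z : z < 1)
    (hy : y = 4 * t / (3 + t ^ 2)) (hG : G y = (3 - t ^ 2) / (3 + t ^ 2))
    (hx : x = 4 * z / (3 + z ^ 2)) (hG' : G x = (3 - z ^ 2) / (3 + z ^ 2)) :
    rhn y x = 3 / 2 * (t + z) / (3 - t * z) := by
  have a1 : 3 - t * z ≠ 0 := by nlinarith
  have a2 : 3 + t * z ≠ 0 := by positivity
  have h1 : G y + G x = 2 * (3 - t * z) * (3 + t * z) / ((3 + t ^ 2) * (3 + z ^ 2)) := by
    rw [hG, hG']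
    field_simp
    ring
  have h2 : y + x = 4 * (t + z) * (3 + t * z) / ((3 + t ^ 2) * (3 + z ^ 2)) := by
    rw [hy, hx]
    field_simp
    ring
  unfold rhn
  rw [h1, h2]
  field_simp

theorem t_Aan (hy : y = 4 * t / (3 + t ^ 2)) (hG : G y = (3 - t ^ 2) / (3 + t ^ 2))
    (hx : x = 4 * z / (3 + z ^ 2)) (hG' : G x = (3 - z ^ 2) / (3 + z ^ 2)) :
    Aan y x = 4 * (t + z) * (3 - t * z) / ((3 + t ^ 2) * (3 + z ^ 2)) := by
  unfold Aan
  rw [hG, hG', hy, hx]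
  field_simp
  ring

theorem t_omn (h0t : 0 < t) (h1t : t < 1) (h0z : 0 < z) (h1z : z < 1)
    (hy : y = 4 * t / (3 + t ^ 2)) (hG : G y = (3 - t ^ 2) / (3 + t ^ 2))
    (hx : x = 4 * z / (3 + z ^ 2)) (hG' : G x = (3 - z ^ 2) / (3 + z ^ 2)) :
    omn y x = (3 + t * z) / (3 - t * z) := by
  have a1 : 3 - t * z ≠ 0 := by nlinarith
  have a2 : t + z ≠ 0 := by positivity
  have h2 : y + x = 4 * (t + z) * (3 + t * z) / ((3 + t ^ 2) * (3 + z ^ 2)) := by
    rw [hy, hx]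
    field_simp
    ring
  unfold omn
  rw [t_Aan hy hG hx hG', h2]
  field_simp

theorem t_lmn (h0t : 0 < t) (h1t : t < 1) (h0z : 0 < z) (h1z : z < 1)
    (hy : y = 4 * t / (3 + t ^ 2)) (hG : G y = (3 - t ^ 2) / (3 + t ^ 2))
    (hx : x = 4 * z / (3 + z ^ 2)) (hG' : G x = (3 - z ^ 2) / (3 + z ^ 2)) :
    lmn y x = (3 + t ^ 2) * (3 + z ^ 2) / (8 * (3 - t * z)) := by
  have a1 : 3 - t * z ≠ 0 := by nlinarith
  have h1 : 1 + G y = 6 / (3 + t ^ 2) := by
    rw [hG]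
    field_simp
    ring
  have h2 : 1 + G x = 6 / (3 + z ^ 2) := by
    rw [hG']
    field_simp
    ring
  unfold lmn
  rw [t_omn h0t h1t h0z h1z hy hG hx hG', h1, h2]
  field_simp
  ring

theorem t_lhn (h0t : 0 < t) (h1t : t < 1) (h0z : 0 < z) (h1z : z < 1)
    (hy : y = 4 * t / (3 + t ^ 2)) (hG : G y = (3 - t ^ 2) / (3 + t ^ 2))
    (hx : x = 4 * z / (3 + z ^ 2)) (hG' : G x = (3 - z ^ 2) / (3 + z ^ 2)) :
    lhn y x = 3 / 2 * (3 + t ^ 2) * (3 + z ^ 2) / ((3 - t) * (3 - z) * (3 - t * z)) := by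
  have a1 : 3 - t * z ≠ 0 := by nlinarith
  have a2 : (3 : ℝ) - t ≠ 0 := by linarith
  have a3 : (3 : ℝ) + t ≠ 0 := by linarith
  have a4 : (3 : ℝ) - z ≠ 0 := by linarith
  have a5 : (3 : ℝ) + z ≠ 0 := by linarith
  have h1 : G y + 1 / 2 = (3 - t) * (3 + t) / (2 * (3 + t ^ 2)) := by
    rw [hG]
    field_simp
    ring
  have h2 : G x + 1 / 2 = (3 - z) * (3 + z) / (2 * (3 + z ^ 2)) := by
    rw [hG']
    field_simp
    ring
  unfold lhn
  rw [t_omn h0t h1t h0z h1z hy hG hx hG', t_rhn h0t h1t h0z h1z hy hG hx hG', h1, h2]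
  field_simp
  ring

end

/-- **The slack of a unit pair below the tight one.** -/
theorem unit_low (hx : 0 < x) (hx1 : x < 1) (hy : 0 < y) (hy1 : y < 1) :
    G y * (1 / 2 - En x - μ * Qn x + y / 2) - (En x + μ * Qn x) * kan y δ * (y * (y - x) / x) -
      μ * (En x * k3d y δ * ((y - x) + w * (y - x) ^ 2 / x)) -
      (1 / 2 - μ * G x - μ * (y - x) / 2) * zen y x δ - 1 / 2 =
      (y - x) ^ 2 * (hfl y x δ + μ * hml y x δ w) := by
  obtain ⟨t, h0t, h1t, ey, eG⟩ := par hy hy1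
  obtain ⟨z, h0z, h1z, ex, eG'⟩ := par hx hx1
  have a1 : 3 - t * z ≠ 0 := by nlinarith
  have a2 : (1 : ℝ) - t ≠ 0 := by linarith
  have a3 : (3 : ℝ) - t ^ 2 ≠ 0 := by nlinarith
  have a4 : (3 : ℝ) + t ^ 2 ≠ 0 := by positivity
  have a5 : (3 : ℝ) + z ^ 2 ≠ 0 := by positivity
  have a6 : t + z ≠ 0 := by positivity
  unfold hfl hml hbn kan k3d k3n zen
  rw [t_rhn h0t h1t h0z h1z ey eG ex eG', t_Aan ey eG ex eG', t_lmn h0t h1t h0z h1z ey eG ex eG',
    t_epn ey eG, t_epn ex eG', t_GUn ey eG, t_GUn ex eG', t_Qn eG, t_Qn eG', t_En ey eG,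
    t_En ex eG', eG, eG', ey, ex]
  field_simp
  ring

/-- **The slack of a unit pair above the tight one.** -/
theorem unit_high (hx : 0 < x) (hx1 : x < 1) (hy : 0 < y) (hy1 : y < 1) :
    G y * (1 / 2 - En x - μ * Qn x + y / 2) -
      (En x + μ * Qn x) * kan y δ * ((1 - y) * (y - x) / (1 - x)) -
      μ * (En x * k3d y δ * ((y - x) - w * (y - x) ^ 2 / (1 - x))) -
      (1 / 2 - μ * G x - μ * (y - x) / 2) * zen y x δ - 1 / 2 =
      (y - x) ^ 2 * (hfh y x δ + μ * hmh y x δ w) := by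
  obtain ⟨t, h0t, h1t, ey, eG⟩ := par hy hy1
  obtain ⟨z, h0z, h1z, ex, eG'⟩ := par hx hx1
  have a1 : 3 - t * z ≠ 0 := by nlinarith
  have a2 : (1 : ℝ) - t ≠ 0 := by linarith
  have a3 : (3 : ℝ) - t ^ 2 ≠ 0 := by nlinarith
  have a4 : (3 : ℝ) + t ^ 2 ≠ 0 := by positivity
  have a5 : (3 : ℝ) + z ^ 2 ≠ 0 := by positivity
  have a6 : t + z ≠ 0 := by positivity
  have a7 : (3 : ℝ) - t ≠ 0 := by linarith
  have a8 : (3 : ℝ) - z ≠ 0 := by linarith
  have a9 : (1 : ℝ) - z ≠ 0 := by linarith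
  have e1 : 1 - x = (1 - z) * (3 - z) / (3 + z ^ 2) := by
    rw [ex]
    field_simp
    ring
  have e2 : 1 - y = (1 - t) * (3 - t) / (3 + t ^ 2) := by
    rw [ey]
    field_simp
    ring
  unfold hfh hmh hbn kan k3d k3n zen
  rw [t_rhn h0t h1t h0z h1z ey eG ex eG', t_Aan ey eG ex eG', t_lhn h0t h1t h0z h1z ey eG ex eG',
    t_ehn h1t ey eG h0t, t_ehn h1z ex eG' h0z, t_GUn ey eG, t_GUn ex eG', t_Qn eG, t_Qn eG',
    t_En ey eG, t_En ex eG', eG, eG', e1, e2, ey, ex]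
  field_simp
  ring

end Pool.Agent.Strip051.LC.Floor
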