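import Pool.Agent.Strip051.LC.Floor.Unit

/-! # Unit pairs at the floor in divided coordinates -/

namespace Pool.Agent.Strip051.LC.Floor

open Pool.Agent.StripNear Pool.Agent.StripSquare Pool.Agent.Strip051.Sweep
open Pool.Agent.Strip051.LC Pool.Agent.Strip051.LC.Exact
open Pool.Agent.Strip051.LC.Line (MonoAt S0 tau mn_low mn_high mn_neg jn D_low mn D)

/-- The quotient of the two amplitudes. -/
noncomputable def GUn (x : ℝ) : ℝ := 3 / 4 * x + 3 / 2 * (1 - G x)

/-- The kernel on the unit circle. -/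
noncomputable def A1n (y : ℝ) : ℝ :=
  if y < 1 / 2 then (G y - 3 / 2 * y) * (1 + G y) / (1 + G y - 3 / 2 * y)
  else (1 + 2 * G y) * (3 / 2 * y - G y) / (2 * (1 + 3 / 2 * y - G y))

/-- The second kernel on the unit circle. -/
noncomputable def KUn (y : ℝ) : ℝ :=
  (if y < 1 / 2 then y else y - 1) * (3 / 4 + 3 / 2 * y + 3 / 4 * y / G y * GUn y)

variable {x μ y : ℝ}

theorem gU_mul (x : ℝ) : gU (h0 * x) = GUn x := by
  unfold gU GUn
  rw [g_mul]
  linear_combination x * h0_sq'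

theorem kU_mul (y : ℝ) : h0 * kU (h0 * y) = 3 / 4 + 3 / 2 * y + 3 / 4 * y / G y * GUn y := by
  unfold kU
  rw [g_mul, gU_mul]
  have e : h0 * (h0 + 2 * (h0 * y) + h0 * y / G y * GUn y) =
      h0 ^ 2 * (1 + 2 * y + y / G y * GUn y) := by ring
  rw [e, h0_sq']
  ring

theorem G_sq (h : 3 / 4 * y ^ 2 ≤ 1) : G y ^ 2 = 1 - 3 / 4 * y ^ 2 := by
  unfold G
  rw [Real.sq_sqrt (by linarith)]

theorem G_nonneg (y : ℝ) : 0 ≤ G y := Real.sqrt_nonneg _

theorem rU_mul (h0y : 0 ≤ y) (hy : h0 * y ≤ 453 / 1000) : rU (h0 * y) = A1n y := by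
  have hp := h0_pos
  have hp2 : 173 / 200 < h0 := by nlinarith [h0_sq']
  have hy1 : y ≤ 53 / 100 := by nlinarith
  have hs := G_sq (y := y) (by nlinarith)
  have hG := G_nonneg y
  have hG2 : 22 / 25 < G y := by nlinarith
  unfold rU A1n
  rw [g_mul, show 2 * h0 * (h0 * y) = 3 / 2 * y by linear_combination 2 * y * h0_sq']
  rcases lt_or_ge y (1 / 2) with h | h
  · rw [if_pos (by nlinarith), if_pos h]
  · rw [if_neg (by nlinarith), if_neg (by linarith)]
    have h1 : 0 < 1 + 3 / 2 * y - G y := by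
      have : G y ≤ 1 := by nlinarith
      linarith
    have h2 : 0 < h0 * y := by positivity
    rw [div_eq_div_iff (by positivity) (by positivity)]
    have key : (2 * (1 + G y) - y) * (2 * (1 + 3 / 2 * y - G y)) = (1 + 2 * G y) * (4 * y) := by
      nlinarith
    calc (3 / 2 * y - G y) * (2 * h0 * (1 + G y) - h0 * y) * (2 * (1 + 3 / 2 * y - G y)) =
        (3 / 2 * y - G y) * h0 * ((2 * (1 + G y) - y) * (2 * (1 + 3 / 2 * y - G y))) := by ring
      _ = _ := by
        rw [key]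
        ring

/-- **Unit pairs at the floor** in divided coordinates. -/
theorem fS_unit (hx : 0 < x) (hx1 : h0 * x ≤ 453 / 1000) (h0y : 0 ≤ y) (hy : h0 * y ≤ 453 / 1000)
    (hμ : 0 ≤ μ) (hμ' : μ * (2 + 2 * G x) ≤ 1) {M : ℝ}
    (hM : mn (D (h0 * x) (kE (h0 * x))) 0 (tau (h0 * y)) = En x * M) :
    0 ≤ fS x μ y (G y) (En x * ((1 + μ * GUn x) * A1n y + μ * KUn y)) (Qn y) M := by
  have hp := h0_pos
  have hp2 : 173 / 200 < h0 := by nlinarith [h0_sq']
  have hy1 : y ≤ 53 / 100 := by nlinarith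
  have key := U.unit_floor (s := h0 * x) (μ := μ) (T := h0 * y) (by positivity) hx1
    (by positivity) hy hμ (by rwa [g_mul])
  have e1 : AU (h0 * x) μ (h0 * y) = (1 + μ * GUn x) * A1n y + μ * KUn y := by
    unfold AU
    rw [gU_mul, rU_mul h0y hy]
    congr 2
    unfold KUn
    rw [← kU_mul]
    rcases lt_or_ge y (1 / 2) with h | h
    · rw [if_pos h, tau0 h]
      ring
    · rw [if_neg (by linarith), tau1 h (by linarith)]
      ring
  have e2 : BU (h0 * x) μ (h0 * y) = lf (h0 * x) μ (h0 * y) * Qn y := by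
    unfold BU lf
    rw [wq_mul]
    ring
  rw [e1, e2, g_mul, S0_norm hM] at key
  exact key

end Pool.Agent.Strip051.LC.Floor
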